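import Pool.Agent.H20.LIM.Targets

/-!
# (COR) the correction far to the right
-/

set_option autoImplicit false

open Complex MeasureTheory Set Filter Topology Metric

namespace Pool.Agent.H68.LIM

open Pool.Agent.H20.LIM

/-- the first factor -/
noncomputable def h1 (n : ℕ) (d : ℕ → ℂ) : Polynomial ℂ :=
  ∑ k ∈ Finset.range (n + 1), Polynomial.C (d k) * Polynomial.X ^ k + Polynomial.X ^ (3 * n)

/-- the second factor -/
noncomputable def h2 (n : ℕ) (d : ℕ → ℂ) : Polynomial ℂ :=
  1 + ∑ k ∈ Finset.range (n + 1),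
    Polynomial.C ((starRingEnd ℂ) (d k)) * Polynomial.X ^ (3 * n - k)

theorem eval_h1 (n : ℕ) (d : ℕ → ℂ) (Y : ℂ) : (h1 n d).eval Y =
    ∑ k ∈ Finset.range (n + 1), d k * Y ^ k + Y ^ (3 * n) := by
  unfold h1
  rw [Polynomial.eval_add, Polynomial.eval_finsetSum]
  simp

theorem eval_h2 (n : ℕ) (d : ℕ → ℂ) (Y : ℂ) : (h2 n d).eval Y =
    1 + ∑ k ∈ Finset.range (n + 1), (starRingEnd ℂ) (d k) * Y ^ (3 * n - k) := by
  unfold h2
  rw [Polynomial.eval_add, Polynomial.eval_finsetSum]
  simp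

/-- reciprocity -/
theorem recip (n : ℕ) (d : ℕ → ℂ) {Y Y' : ℂ} (h : (starRingEnd ℂ) Y' * Y = 1) :
    Y ^ (3 * n) * (starRingEnd ℂ) ((h1 n d).eval Y') = (h2 n d).eval Y ∧
    Y ^ (3 * n) * (starRingEnd ℂ) ((h2 n d).eval Y') = (h1 n d).eval Y := by
  have hp : ∀ k : ℕ, (starRingEnd ℂ) Y' ^ k * Y ^ k = 1 := fun k => by
    rw [← mul_pow, h, one_pow]
  have hk : ∀ k ∈ Finset.range (n + 1), Y ^ (3 * n) = Y ^ (3 * n - k) * Y ^ k := by
    intro k hk
    rw [Finset.mem_range] at hk
    rw [← pow_add]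
    congr 1
    omega
  constructor
  · rw [eval_h1, eval_h2, map_add, map_sum, map_pow, mul_add, Finset.mul_sum, add_comm,
      mul_comm (Y ^ (3 * n)) _, hp]
    congr 1
    refine Finset.sum_congr rfl fun k hk' => ?_
    rw [map_mul, map_pow, hk k hk']
    have := hp k
    linear_combination ((starRingEnd ℂ) (d k) * Y ^ (3 * n - k)) * this
  · rw [eval_h1, eval_h2, map_add, map_sum, map_one, mul_add, Finset.mul_sum, mul_one, add_comm]
    congr 1
    refine Finset.sum_congr rfl fun k hk' => ?_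
    rw [map_mul, map_pow, Complex.conj_conj, hk k hk']
    have := hp (3 * n - k)
    linear_combination (d k * Y ^ k) * this

/-- bounds for both factors -/
theorem bound (n : ℕ) (d : ℕ → ℂ) {D ρ : ℝ} (hD : 1 ≤ D) (hd : ∀ k ≤ n, ‖d k‖ ≤ D) (hρ : 1 ≤ ρ)
    {Y : ℂ} (hY : ‖Y‖ ≤ ρ) :
    ‖(h1 n d).eval Y‖ ≤ (n + 2) * D * ρ ^ (3 * n) ∧
    ‖(h2 n d).eval Y‖ ≤ (n + 2) * D * ρ ^ (3 * n) := by
  have hρ0 : 0 ≤ ρ := by linarith
  have hpow : ∀ k ≤ 3 * n, ‖Y‖ ^ k ≤ ρ ^ (3 * n) := fun k hk =>
    (pow_le_pow_left₀ (norm_nonneg _) hY k).trans (pow_le_pow_right₀ hρ hk)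
  have hρn : 0 ≤ ρ ^ (3 * n) := pow_nonneg hρ0 _
  have hD0 : 0 ≤ D := by linarith
  constructor
  · rw [eval_h1]
    calc ‖∑ k ∈ Finset.range (n + 1), d k * Y ^ k + Y ^ (3 * n)‖
        ≤ ‖∑ k ∈ Finset.range (n + 1), d k * Y ^ k‖ + ‖Y ^ (3 * n)‖ := norm_add_le _ _
      _ ≤ (∑ k ∈ Finset.range (n + 1), D * ρ ^ (3 * n)) + ρ ^ (3 * n) := by
          refine add_le_add ((norm_sum_le _ _).trans (Finset.sum_le_sum fun k hk => ?_)) ?_
          · rw [Finset.mem_range] at hk
            rw [norm_mul, norm_pow]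
            exact mul_le_mul (hd k (by omega)) (hpow k (by omega)) (by positivity) hD0
          · rw [norm_pow]
            exact hpow _ le_rfl
      _ = ((n : ℝ) + 1) * (D * ρ ^ (3 * n)) + ρ ^ (3 * n) := by
          rw [Finset.sum_const, Finset.card_range, nsmul_eq_mul]
          push_cast
          ring
      _ ≤ (n + 2) * D * ρ ^ (3 * n) := by nlinarith
  · rw [eval_h2]
    calc ‖1 + ∑ k ∈ Finset.range (n + 1), (starRingEnd ℂ) (d k) * Y ^ (3 * n - k)‖
        ≤ ‖(1 : ℂ)‖ + ‖∑ k ∈ Finset.range (n + 1), (starRingEnd ℂ) (d k) * Y ^ (3 * n - k)‖ :=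
          norm_add_le _ _
      _ ≤ 1 + ∑ k ∈ Finset.range (n + 1), D * ρ ^ (3 * n) := by
          refine add_le_add (by simp) ((norm_sum_le _ _).trans (Finset.sum_le_sum fun k hk => ?_))
          rw [Finset.mem_range] at hk
          rw [norm_mul, norm_pow, RCLike.norm_conj]
          exact mul_le_mul (hd k (by omega)) (hpow _ (by omega)) (by positivity) hD0
      _ = ((n : ℝ) + 1) * (D * ρ ^ (3 * n)) + 1 := by
          rw [Finset.sum_const, Finset.card_range, nsmul_eq_mul]
          push_cast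
          ring
      _ ≤ (n + 2) * D * ρ ^ (3 * n) := by
          have h3 : 1 ≤ ρ ^ (3 * n) := one_le_pow₀ hρ
          nlinarith

theorem norm_Y (θ : ℝ) (z : ℂ) : ‖cexp (-(θ * z))‖ = Real.exp (-(θ * z.re)) := by
  rw [Complex.norm_exp]
  congr 1
  simp

/-- (COR) -/
theorem pf_cor (hCOR1 : T_COR1) (hLJ : T_LJ) : T_COR := by
  intro R hR
  refine ⟨60 + 3 * Real.pi * (2 * R + 3) ^ 2 * (18 + 60 * (R + 1)), by positivity, ?_⟩
  intro θ δ hθ hδ hδ8
  obtain ⟨Λ₁, hΛ₁⟩ := hCOR1 θ δ hθ hδ hδ8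
  refine ⟨max Λ₁ ((1 + 20 / θ) / δ), fun Λ hΛ P hP0 hP => ?_⟩
  obtain ⟨n, d, hn1, hn2, hd, hS⟩ := hΛ₁ Λ ((le_max_left _ _).trans hΛ) P hP0 hP
  have ht0 : 1 + 20 / θ ≤ δ * Λ := by
    have h3 := (le_max_right _ _).trans hΛ
    rw [div_le_iff₀ hδ] at h3
    linarith
  set t := δ * Λ with ht
  have h20 : 0 < 20 / θ := by positivity
  have ht1 : 1 ≤ t := by linarith
  have hn1' : 9 * t ≤ n * θ := by
    have : 9 * δ * Λ = 9 * t := by rw [ht]; ring
    linarith
  have hn2' : n * θ ≤ 10 * t := by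
    have : 10 * δ * Λ = 10 * t := by rw [ht]; ring
    linarith
  -- the number of terms is small
  have hnexp : (n : ℝ) + 2 ≤ Real.exp t := by
    have h3 : (n : ℝ) ≤ 10 * t / θ := by
      rw [le_div_iff₀ hθ]
      exact hn2'
    have h4 := Real.quadratic_le_exp_of_nonneg (by linarith : (0 : ℝ) ≤ t)
    have h5 : 10 * t / θ ≤ t ^ 2 / 2 := by
      have h6 : 20 / θ ≤ t := by linarith
      have h7 : 10 * t / θ = (20 / θ) * t / 2 := by ring
      rw [h7]
      nlinarith
    linarith
  set D := Real.exp (t + θ * (5 / 8) * n) with hDdef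
  have hD1 : 1 ≤ D := Real.one_le_exp (by positivity)
  have hn0 : (0 : ℝ) ≤ n := Nat.cast_nonneg n
  have hdD : ∀ k ≤ n, ‖d k‖ ≤ D := by
    intro k hk
    refine (hd k).trans (Real.exp_le_exp.2 ?_)
    have h3 : (k : ℝ) ≤ n := by exact_mod_cast hk
    have h4 : (0 : ℝ) ≤ k := Nat.cast_nonneg k
    have h5 : θ * (1 / 2 + δ) * k ≤ θ * (5 / 8) * n := by
      have h6 : θ * (1 / 2 + δ) ≤ θ * (5 / 8) := mul_le_mul_of_nonneg_left (by linarith) hθ.le
      have h7 : 0 ≤ θ * (5 / 8) := by positivity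
      calc θ * (1 / 2 + δ) * k ≤ θ * (5 / 8) * k := mul_le_mul_of_nonneg_right h6 h4
        _ ≤ θ * (5 / 8) * n := mul_le_mul_of_nonneg_left h3 h7
    linarith
  have hDle : (n + 2) * D ≤ Real.exp (9 * t) := by
    calc (n + 2) * D ≤ Real.exp t * D := mul_le_mul_of_nonneg_right hnexp (by linarith)
      _ = Real.exp (t + (t + θ * (5 / 8) * n)) := by rw [hDdef, ← Real.exp_add]
      _ ≤ Real.exp (9 * t) := by
          apply Real.exp_le_exp.2
          nlinarith
  -- bounds for `P`
  have hPle : ∀ z : ℂ, 1 ≤ z.re → ‖P.eval (cexp (-(θ * z)))‖ ≤ Real.exp t := by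
    intro z hz
    obtain ⟨h3, h4⟩ := hP z (by linarith)
    have h5 : 0 < ‖P.eval (cexp (-(θ * z)))‖ := norm_pos_iff.2 h3
    rw [← Real.exp_log h5]
    exact Real.exp_le_exp.2 ((le_abs_self _).trans h4)
  -- the right half plane
  have hright : ∀ z : ℂ, 1 ≤ z.re →
      ‖P.eval (cexp (-(θ * z))) * (h1 n d * h2 n d).eval (cexp (-(θ * z))) - 1‖ ≤ 1 / 2 := by
    intro z hz
    set Y := cexp (-(θ * z)) with hY
    have hYn : ‖Y‖ ≤ Real.exp (-θ) := by
      rw [hY, norm_Y]
      apply Real.exp_le_exp.2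
      nlinarith
    have e1 : ‖P.eval Y * (h1 n d).eval Y - 1‖ ≤ 1 / 4 := by
      rw [eval_h1]
      have h3 : P.eval Y * (∑ k ∈ Finset.range (n + 1), d k * Y ^ k + Y ^ (3 * n)) - 1 =
          (P.eval Y * (∑ k ∈ Finset.range (n + 1), d k * Y ^ k) - 1) + P.eval Y * Y ^ (3 * n) := by
        ring
      rw [h3]
      refine (norm_add_le _ _).trans ?_
      have h4 := hS z hz
      have h5 : ‖P.eval Y * Y ^ (3 * n)‖ ≤ 1 / 8 := by
        rw [norm_mul, norm_pow]
        calc ‖P.eval Y‖ * ‖Y‖ ^ (3 * n) ≤ Real.exp t * Real.exp (-θ) ^ (3 * n) :=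
              mul_le_mul (hPle z hz) (pow_le_pow_left₀ (norm_nonneg _) hYn _) (by positivity)
                (Real.exp_pos _).le
          _ = Real.exp (t + (3 * n : ℕ) * (-θ)) := by
              rw [← Real.exp_nat_mul, ← Real.exp_add]
          _ ≤ Real.exp (-3) := by
              apply Real.exp_le_exp.2
              push_cast
              nlinarith
          _ ≤ 1 / 8 := by
              have h6 : Real.exp (-3) = (Real.exp 1)⁻¹ ^ 3 := by
                rw [← Real.exp_neg, ← Real.exp_nat_mul]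
                norm_num
              have h7 : (2 : ℝ) ≤ Real.exp 1 := by
                have := Real.exp_one_gt_d9
                linarith
              have h8 : (Real.exp 1)⁻¹ ≤ 1 / 2 := by
                rw [inv_le_comm₀ (by positivity) (by norm_num)]
                simpa using h7
              rw [h6]
              calc (Real.exp 1)⁻¹ ^ 3 ≤ (1 / 2) ^ 3 :=
                    pow_le_pow_left₀ (by positivity) h8 3
                _ = 1 / 8 := by norm_num
      calc _ ≤ 1 / 8 + 1 / 8 := add_le_add h4 h5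
        _ = 1 / 4 := by norm_num
    have e2 : ‖(h2 n d).eval Y - 1‖ ≤ 1 / 8 := by
      rw [eval_h2, add_sub_cancel_left]
      have h3 : ∀ k ∈ Finset.range (n + 1),
          ‖(starRingEnd ℂ) (d k) * Y ^ (3 * n - k)‖ ≤ Real.exp (-(4 * t)) := by
        intro k hk
        rw [Finset.mem_range] at hk
        have hkn : k ≤ n := by omega
        rw [norm_mul, norm_pow, RCLike.norm_conj]
        have h5 : ‖Y‖ ^ (3 * n - k) ≤ Real.exp (-θ) ^ (2 * n) := by
          calc ‖Y‖ ^ (3 * n - k) ≤ Real.exp (-θ) ^ (3 * n - k) :=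
                pow_le_pow_left₀ (norm_nonneg _) hYn _
            _ ≤ Real.exp (-θ) ^ (2 * n) :=
                pow_le_pow_of_le_one (Real.exp_pos _).le
                  (Real.exp_le_one_iff.2 (by linarith)) (by omega)
        calc ‖d k‖ * ‖Y‖ ^ (3 * n - k) ≤ D * Real.exp (-θ) ^ (2 * n) :=
              mul_le_mul (hdD k hkn) h5 (by positivity) (by linarith)
          _ = Real.exp ((t + θ * (5 / 8) * n) + (2 * n : ℕ) * (-θ)) := by
              rw [hDdef, ← Real.exp_nat_mul, ← Real.exp_add]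
          _ ≤ Real.exp (-(4 * t)) := by
              apply Real.exp_le_exp.2
              push_cast
              nlinarith
      calc ‖∑ k ∈ Finset.range (n + 1), (starRingEnd ℂ) (d k) * Y ^ (3 * n - k)‖
          ≤ ∑ k ∈ Finset.range (n + 1), Real.exp (-(4 * t)) :=
            (norm_sum_le _ _).trans (Finset.sum_le_sum h3)
        _ = (n + 1) * Real.exp (-(4 * t)) := by
            rw [Finset.sum_const, Finset.card_range, nsmul_eq_mul]
            push_cast
            ring
        _ ≤ Real.exp t * Real.exp (-(4 * t)) :=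
            mul_le_mul_of_nonneg_right (by linarith) (Real.exp_pos _).le
        _ = Real.exp (-(3 * t)) := by
            rw [← Real.exp_add]
            congr 1
            ring
        _ ≤ Real.exp (-3) := Real.exp_le_exp.2 (by linarith)
        _ ≤ 1 / 8 := by
            have h6 : Real.exp (-3) = (Real.exp 1)⁻¹ ^ 3 := by
              rw [← Real.exp_neg, ← Real.exp_nat_mul]
              norm_num
            have h7 : (2 : ℝ) ≤ Real.exp 1 := by
              have := Real.exp_one_gt_d9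
              linarith
            have h8 : (Real.exp 1)⁻¹ ≤ 1 / 2 := by
              rw [inv_le_comm₀ (by positivity) (by norm_num)]
              simpa using h7
            rw [h6]
            calc (Real.exp 1)⁻¹ ^ 3 ≤ (1 / 2) ^ 3 :=
                  pow_le_pow_left₀ (by positivity) h8 3
              _ = 1 / 8 := by norm_num
    have e3 : ‖(h2 n d).eval Y‖ ≤ 9 / 8 := by
      have h3 : (h2 n d).eval Y = ((h2 n d).eval Y - 1) + 1 := by ring
      rw [h3]
      refine (norm_add_le _ _).trans ?_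
      rw [norm_one]
      linarith
    rw [Polynomial.eval_mul]
    have h3 : P.eval Y * ((h1 n d).eval Y * (h2 n d).eval Y) - 1 =
        (P.eval Y * (h1 n d).eval Y - 1) * (h2 n d).eval Y + ((h2 n d).eval Y - 1) := by ring
    rw [h3]
    calc _ ≤ ‖(P.eval Y * (h1 n d).eval Y - 1) * (h2 n d).eval Y‖ + ‖(h2 n d).eval Y - 1‖ :=
          norm_add_le _ _
      _ ≤ 1 / 4 * (9 / 8) + 1 / 8 := by
          rw [norm_mul]
          exact add_le_add (mul_le_mul e1 e3 (norm_nonneg _) (by norm_num)) e2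
      _ ≤ 1 / 2 := by norm_num
  have hbd : ∀ (σ : ℝ) (z : ℂ), 0 ≤ σ → -σ ≤ z.re →
      ‖(h1 n d * h2 n d).eval (cexp (-(θ * z)))‖ ≤ Real.exp ((18 + 60 * σ) * t) := by
    intro σ z hσ hz
    have hY : ‖cexp (-(θ * z))‖ ≤ Real.exp (θ * σ) := by
      rw [norm_Y]
      apply Real.exp_le_exp.2
      nlinarith
    obtain ⟨b1, b2⟩ := bound n d hD1 hdD (Real.one_le_exp (by positivity : (0 : ℝ) ≤ θ * σ)) hY
    have hb : ((n : ℝ) + 2) * D * Real.exp (θ * σ) ^ (3 * n) ≤ Real.exp ((9 + 30 * σ) * t) := by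
      calc ((n : ℝ) + 2) * D * Real.exp (θ * σ) ^ (3 * n)
          ≤ Real.exp (9 * t) * Real.exp (θ * σ) ^ (3 * n) :=
            mul_le_mul_of_nonneg_right hDle (by positivity)
        _ = Real.exp (9 * t + (3 * n : ℕ) * (θ * σ)) := by
            rw [← Real.exp_nat_mul, ← Real.exp_add]
        _ ≤ Real.exp ((9 + 30 * σ) * t) := by
            apply Real.exp_le_exp.2
            push_cast
            have h3 : (n : ℝ) * θ * σ ≤ 10 * t * σ := mul_le_mul_of_nonneg_right hn2' hσ
            nlinarith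
    rw [Polynomial.eval_mul, norm_mul]
    calc _ ≤ Real.exp ((9 + 30 * σ) * t) * Real.exp ((9 + 30 * σ) * t) :=
          mul_le_mul (b1.trans hb) (b2.trans hb) (norm_nonneg _) (Real.exp_pos _).le
      _ = Real.exp ((18 + 60 * σ) * t) := by
          rw [← Real.exp_add]
          congr 1
          ring
  have hK : 0 ≤ 3 * Real.pi * (2 * R + 3) ^ 2 * (18 + 60 * (R + 1)) := by positivity
  refine ⟨6 * n, h1 n d * h2 n d, ?_, ?_, hright, ?_, ?_⟩
  · push_cast
    have h3 : (60 + 3 * Real.pi * (2 * R + 3) ^ 2 * (18 + 60 * (R + 1))) * δ * Λ =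
        60 * t + 3 * Real.pi * (2 * R + 3) ^ 2 * (18 + 60 * (R + 1)) * t := by
      rw [ht]
      ring
    rw [h3]
    have h4 : 0 ≤ 3 * Real.pi * (2 * R + 3) ^ 2 * (18 + 60 * (R + 1)) * t :=
      mul_nonneg hK (by linarith)
    linarith
  · intro z
    set Y := cexp (-(θ * z)) with hY
    have h3 : (starRingEnd ℂ) (cexp (-(θ * (-(starRingEnd ℂ) z)))) * Y = 1 := by
      rw [← Complex.exp_conj, hY, ← Complex.exp_add]
      simp
    obtain ⟨r1, r2⟩ := recip n d h3
    have h4 : cexp (-(θ * (6 * n : ℕ) * z)) = Y ^ (3 * n) * Y ^ (3 * n) := by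
      rw [hY, ← Complex.exp_nat_mul, ← Complex.exp_add]
      congr 1
      push_cast
      ring
    rw [h4, Polynomial.eval_mul, Polynomial.eval_mul, map_mul, ← r1, ← r2]
    ring
  · intro z hz
    have h3 := hbd 0 z le_rfl (by linarith)
    refine h3.trans (Real.exp_le_exp.2 ?_)
    have h4 : (60 + 3 * Real.pi * (2 * R + 3) ^ 2 * (18 + 60 * (R + 1))) * δ * Λ =
        60 * t + 3 * Real.pi * (2 * R + 3) ^ 2 * (18 + 60 * (R + 1)) * t := by
      rw [ht]
      ring
    rw [h4]
    have h5 : 0 ≤ 3 * Real.pi * (2 * R + 3) ^ 2 * (18 + 60 * (R + 1)) * t :=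
      mul_nonneg hK (by linarith)
    nlinarith
  · have hA : 0 ≤ (18 + 60 * (R + 1)) * t := by positivity
    have hdiff : Differentiable ℂ
        (fun z : ℂ => (h1 n d * h2 n d).eval (cexp (-(θ * z)))) := by
      have e1 : Differentiable ℂ (fun w : ℂ => (h1 n d * h2 n d).eval w) :=
        Polynomial.differentiable _
      exact e1.comp (by fun_prop)
    have hLJ' := hLJ (fun z : ℂ => (h1 n d * h2 n d).eval (cexp (-(θ * z)))) ((R + 2 : ℝ) : ℂ)
      (2 * R + 3) ((18 + 60 * (R + 1)) * t) (by linarith) hA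
      (fun z _ => hdiff.analyticAt z)
      (fun z hz => by
        apply hbd (R + 1) z (by linarith)
        rw [mem_closedBall, dist_eq_norm] at hz
        have h3 := (Complex.abs_re_le_norm (z - ((R + 2 : ℝ) : ℂ))).trans hz
        rw [Complex.sub_re, Complex.ofReal_re] at h3
        have h4 := (abs_le.1 h3).1
        linarith)
      (by
        have h3 := hright ((R + 2 : ℝ) : ℂ) (by rw [Complex.ofReal_re]; linarith)
        have h4 := hPle ((R + 2 : ℝ) : ℂ) (by rw [Complex.ofReal_re]; linarith)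
        set Y := cexp (-(θ * ((R + 2 : ℝ) : ℂ))) with hY
        have h5 : 1 / 2 ≤ ‖P.eval Y * (h1 n d * h2 n d).eval Y‖ := by
          have h6 : ‖(1 : ℂ)‖ ≤ ‖P.eval Y * (h1 n d * h2 n d).eval Y‖ +
              ‖P.eval Y * (h1 n d * h2 n d).eval Y - 1‖ := by
            calc ‖(1 : ℂ)‖ = ‖P.eval Y * (h1 n d * h2 n d).eval Y -
                  (P.eval Y * (h1 n d * h2 n d).eval Y - 1)‖ := by
                  congr 1
                  ring
              _ ≤ _ := norm_sub_le _ _
          rw [norm_one] at h6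
          linarith
        rw [norm_mul] at h5
        have h6 : 1 / 2 ≤ Real.exp t * ‖(h1 n d * h2 n d).eval Y‖ :=
          h5.trans (mul_le_mul_of_nonneg_right h4 (norm_nonneg _))
        have h7 : Real.exp (-(2 * t)) * Real.exp t ≤ 1 / 2 := by
          rw [← Real.exp_add]
          have h8 : -(2 * t) + t = -t := by ring
          rw [h8]
          calc Real.exp (-t) ≤ Real.exp (-1) := Real.exp_le_exp.2 (by linarith)
            _ ≤ 1 / 2 := by
                have h7 : (2 : ℝ) ≤ Real.exp 1 := by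
                  have := Real.exp_one_gt_d9
                  linarith
                rw [Real.exp_neg, inv_le_comm₀ (by positivity) (by norm_num)]
                simpa using h7
        have h8 : Real.exp (-(2 * t)) ≤ ‖(h1 n d * h2 n d).eval Y‖ := by
          have h9 : Real.exp t * Real.exp (-(2 * t)) ≤ Real.exp t * ‖(h1 n d * h2 n d).eval Y‖ := by
            rw [mul_comm (Real.exp t)]
            exact h7.trans h6
          exact le_of_mul_le_mul_left h9 (Real.exp_pos _)
        refine (Real.exp_le_exp.2 ?_).trans h8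
        nlinarith)
    unfold L1
    calc ∫⁻ z in closedBall (0 : ℂ) R, ‖Real.log ‖(h1 n d * h2 n d).eval (cexp (-(θ * z)))‖‖ₑ
        ≤ ∫⁻ z in closedBall ((R + 2 : ℝ) : ℂ) (2 * R + 3),
          ‖Real.log ‖(h1 n d * h2 n d).eval (cexp (-(θ * z)))‖‖ₑ := by
          apply lintegral_mono_set
          apply closedBall_subset_closedBall'
          rw [dist_eq_norm, zero_sub, norm_neg, Complex.norm_real, Real.norm_eq_abs,
            abs_of_pos (by linarith)]
          linarith
      _ ≤ ENNReal.ofReal (3 * Real.pi * (2 * R + 3) ^ 2 * ((18 + 60 * (R + 1)) * t)) := hLJ'.2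
      _ ≤ _ := by
          apply ENNReal.ofReal_le_ofReal
          have h4 : (60 + 3 * Real.pi * (2 * R + 3) ^ 2 * (18 + 60 * (R + 1))) * δ * Λ =
              60 * t + 3 * Real.pi * (2 * R + 3) ^ 2 * (18 + 60 * (R + 1)) * t := by
            rw [ht]
            ring
          rw [h4]
          have h5 : 0 ≤ 60 * t := by linarith
          have h6 : 3 * Real.pi * (2 * R + 3) ^ 2 * ((18 + 60 * (R + 1)) * t) =
            3 * Real.pi * (2 * R + 3) ^ 2 * (18 + 60 * (R + 1)) * t := by ring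
          linarith

end Pool.Agent.H68.LIM
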